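import Pool.Agent.helper74.XP.SpecP

set_option autoImplicit false

open Complex Metric Set Filter Topology MeasureTheory MPS PPS Pool.Agent.helper16.Multibrot

noncomputable section

namespace XPP

lemma EXU_lin (m : Multiset ℂ) (J : Finset ℕ) (a : ℕ → ℂ) (q d : ℂ → ℂ) (B : ℕ → ℂ → ℂ) :
    (m.map fun y => (q y + -∑ j ∈ J, a j * B j y) / d y ^ 2).sum =
      (m.map fun y => q y / d y ^ 2).sum -
        ∑ j ∈ J, a j * (m.map fun y => B j y / d y ^ 2).sum := by
  induction m using Multiset.induction_on with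
  | empty => simp
  | cons x m ih =>
    simp only [Multiset.map_cons, Multiset.sum_cons, ih]
    have h1 : ∑ j ∈ J, a j * (B j x / d x ^ 2 + (m.map fun y => B j y / d y ^ 2).sum) =
        (∑ j ∈ J, a j * B j x) / d x ^ 2 +
          ∑ j ∈ J, a j * (m.map fun y => B j y / d y ^ 2).sum := by
      rw [Finset.sum_div, ← Finset.sum_add_distrib]
      refine Finset.sum_congr rfl fun j _ => ?_
      ring
    rw [h1]
    ring

lemma EXU_fd (n : ℕ) (c z : ℂ) :
    PPS.fd (Polynomial.X ^ n + Polynomial.C c) z = MPS.fd n z := by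
  simp [PPS.fd, MPS.fd, Polynomial.derivative_X_pow]

lemma EXU_fdd {n : ℕ} (hn : 2 ≤ n) (c z : ℂ) :
    PPS.fdd (Polynomial.X ^ n + Polynomial.C c) z = MPS.fdd n z := by
  obtain ⟨m, rfl⟩ : ∃ m, n = m + 2 := ⟨n - 2, by omega⟩
  simp [PPS.fdd, MPS.fdd]
  ring

lemma EXU_one (hU : V3W.UER_stmt) (n : ℕ) (c : ℂ) (O : CY (Polynomial.X ^ n + Polynomial.C c))
    (hn : 2 ≤ n) (hc : ‖c‖ ≤ 3) :
    ∀ᵐ z : ℂ, TT (Polynomial.X ^ n + Polynomial.C c) (BB O.b O.g) z =
      BB O.b O.g z - (∑ i, O.g i) / (z - c) := by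
  have hcyc : MPS.IsCyc n c O.b := by
    refine ⟨O.cyc.inj, fun i => ?_, fun i h0 => ?_⟩
    · have := O.cyc.step i
      simpa using this
    · have := O.cyc.ne0 i
      rw [EXU_fd] at this
      apply this
      rw [MPS.fd, h0, zero_pow (by omega), mul_zero]
  have hg : ∀ i, O.g (i + 1) = O.g i / MPS.fd n (O.b i) -
      MPS.fdd n (O.b i) / MPS.fd n (O.b i) ^ 2 := by
    intro i
    have := O.ex i
    rw [EXU_fd, EXU_fdd hn] at this
    exact this
  obtain ⟨-, -, -, -, h⟩ := hU n O.k c O.b O.g hn hc hcyc hg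
  filter_upwards [h] with z hz
  rw [← hz, PPS.er]
  ring

/-- **EXU**: exact invariance of a combination. -/
theorem EXU (hU : V3W.UER_stmt) : EXU_stmt := by
  intro n c O J C a hn hc hs
  have h0 := EXU_one hU n c O hn hc
  have hJ : ∀ᵐ z : ℂ, ∀ j ∈ J, TT (Polynomial.X ^ n + Polynomial.C c) (BB (C j).b (C j).g) z =
      BB (C j).b (C j).g z - (∑ i, (C j).g i) / (z - c) := by
    have : ∀ᵐ z : ℂ, ∀ j : ℕ, TT (Polynomial.X ^ n + Polynomial.C c) (BB (C j).b (C j).g) z =
        BB (C j).b (C j).g z - (∑ i, (C j).g i) / (z - c) := by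
      rw [ae_all_iff]
      exact fun j => EXU_one hU n c (C j) hn hc
    filter_upwards [this] with z hz j _ using hz j
  filter_upwards [h0, hJ] with z hz0 hzJ
  have h1 : TT (Polynomial.X ^ n + Polynomial.C c) (fun z => BB O.b O.g z + rJ J C a z) z =
      TT (Polynomial.X ^ n + Polynomial.C c) (BB O.b O.g) z -
        ∑ j ∈ J, a j * TT (Polynomial.X ^ n + Polynomial.C c) (BB (C j).b (C j).g) z :=
    EXU_lin _ J a (BB O.b O.g) (PPS.fd (Polynomial.X ^ n + Polynomial.C c))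
      (fun j => BB (C j).b (C j).g)
  rw [h1, hz0]
  have h2 : ∑ j ∈ J, a j * TT (Polynomial.X ^ n + Polynomial.C c) (BB (C j).b (C j).g) z =
      ∑ j ∈ J, a j * BB (C j).b (C j).g z - (∑ j ∈ J, a j * ∑ i, (C j).g i) / (z - c) := by
    rw [Finset.sum_div, ← Finset.sum_sub_distrib]
    refine Finset.sum_congr rfl fun j hj => ?_
    rw [hzJ j hj]
    ring
  rw [h2, ← hs]
  have h3 : rJ J C a z = -∑ j ∈ J, a j * BB (C j).b (C j).g z := rfl
  rw [h3]
  ring

end XPP
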